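import Pool.Agent.R855.N4.Dom
import Pool.Agent.R855.N4.Lower

/-!
# A rational self-map of `ℙ³` with `deg (f^n)` growing like `n^4`

Over every field of characteristic zero there is a dominant (even birational) self-map `f` of `ℙ³`
with dynamical degree `1` such that `deg (f^n)` is at least `(n^4 - 1) / 27` for infinitely many
`n`.  Hence `deg (f^n) ≍ n^ℓ δ_f^n` fails for all `ℓ ≤ 3`.

The threefold `E³ / μ₆`, where `E : y² = x³ + 1`, is the quotient of the variety of triples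
`(P₁, P₂, P₃)` of points of one curve `y² = x³ + t` by the scaling `(x, y, t) ↦ (c²x, c³y, c⁶t)`.
It is rational: `(x₁ : x₂ : x₃)` and `(y₃ - y₁) / (y₂ - y₁)` are coordinates.  The map is
`(P₁, P₂, P₃) ↦ (P₁, P₂ + P₁, P₃ + 2 P₂ + P₁)`, so that
`f^n (P₁, P₂, P₃) = (P₁, P₂ + n P₁, P₃ + 2 n P₂ + n² P₁)`.
-/

set_option autoImplicit false

open MvPolynomial Filter Topology

namespace Pool.Agent.Results.MP_55ef7c_ag.GrowthBeyondN

/-- `(N + 1)`-tuples of polynomials in `X_0, …, X_N`. -/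
abbrev Tuple (K : Type*) [Field K] (N : ℕ) : Type _ := Fin (N + 1) → MvPolynomial (Fin (N + 1)) K

variable {K : Type*} [Field K] {N : ℕ}

/-- The polynomials `f_0, …, f_N` are homogeneous of one common degree `d`. -/
def AreForms (f : Tuple K N) (d : ℕ) : Prop := ∀ i, (f i).IsHomogeneous d

/-- The polynomials `f_0, …, f_N` have no nonconstant common factor. -/
def NoCommonFactor (f : Tuple K N) : Prop := ∀ q : MvPolynomial (Fin (N + 1)) K,
  (∀ i, q ∣ f i) → IsUnit q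

/-- The rational map `f = [f_0 : … : f_N]` is dominant: the `f_i` satisfy no nontrivial polynomial
relation. -/
def Dominant (f : Tuple K N) : Prop := AlgebraicIndependent K f

/-- The tuple which is obtained by composing the tuple `f` with itself `n` times (common factors
are not removed). -/
noncomputable def compose (f : Tuple K N) : ℕ → Tuple K N
  | 0 => X
  | n + 1 => fun i => bind₁ (compose f n) (f i)

/-- The rational map given by the tuple `P` has degree `e`: `P = H · G` with `H ≠ 0`, where the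
members of the tuple `G` are homogeneous of degree `e` and have no nonconstant common factor. -/
def HasDegree (P : Tuple K N) (e : ℕ) : Prop :=
  ∃ (H : MvPolynomial (Fin (N + 1)) K) (G : Tuple K N), H ≠ 0 ∧ (∀ i, P i = H * G i) ∧
    AreForms G e ∧ NoCommonFactor G

/-- `D` is the degree sequence of `f`: for every `n` the iterate `f^n` has degree `D n`, and no
other degree. -/
def IsDegreeSequence (f : Tuple K N) (D : ℕ → ℕ) : Prop :=
  ∀ n e, HasDegree (compose f n) e ↔ e = D n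

/-- `F(n) ≍ G(n)`. -/
def Comparable (F G : ℕ → ℝ) : Prop :=
  ∃ c₁ c₂ c₃ : ℝ, 0 < c₁ ∧ 0 < c₂ ∧ 0 < c₃ ∧
    ∀ n : ℕ, c₃ ≤ (n : ℝ) → c₁ * F n ≤ G n ∧ G n ≤ c₂ * F n

lemma compose_eq (f : Tuple K N) (n : ℕ) : compose f n = Pool.Agent.Helper993.CS.iter f n := by
  induction n with
  | zero => rfl
  | succ n ih =>
    funext i
    show bind₁ (compose f n) (f i) = bind₁ (Pool.Agent.Helper993.CS.iter f n) (f i)
    rw [ih]

lemma hasDegree_iff (P : Tuple K N) (e : ℕ) :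
    HasDegree P e ↔ Pool.Agent.Helper993.CS.RedDeg P e := Iff.rfl

/-- The analysis: the dynamical degree is one. -/
lemma delta_eq (D : ℕ → ℕ) (δ : ℝ)
    (hlim : Tendsto (fun n : ℕ => (D n : ℝ) ^ ((1 : ℝ) / n)) atTop (𝓝 δ)) (C : ℕ)
    (hup : ∀ k, D (2 ^ k) ≤ C * 676 ^ k)
    (hlow : ∀ k, 4 ^ (2 * (k + 1)) - 1 ≤ 27 * D (2 ^ (k + 1) - 2)) : δ = 1 := by
  apply le_antisymm
  · by_contra hcon
    push Not at hcon
    obtain ⟨r, hr1, hr2⟩ := exists_between hcon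
    have h1 : ∀ᶠ n : ℕ in atTop, r < (D n : ℝ) ^ ((1 : ℝ) / n) := hlim.eventually_const_lt hr2
    have h2 : ∀ᶠ n : ℕ in atTop, r ^ n < (D n : ℝ) := by
      filter_upwards [h1, eventually_ge_atTop 1] with n hn hn1
      have h3 : r ^ n < ((D n : ℝ) ^ ((1 : ℝ) / n)) ^ n :=
        pow_lt_pow_left₀ hn (by linarith) (by omega)
      have hn0 : (n : ℝ) ≠ 0 := by
        have : n ≠ 0 := by omega
        exact_mod_cast this
      rwa [← Real.rpow_natCast, ← Real.rpow_natCast, ← Real.rpow_mul (Nat.cast_nonneg _),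
        one_div, inv_mul_cancel₀ hn0, Real.rpow_one, Real.rpow_natCast] at h3
    have hpow : Tendsto (fun k : ℕ => 2 ^ k) atTop (atTop : Filter ℕ) :=
      tendsto_pow_atTop_atTop_of_one_lt (by norm_num)
    have h4 := hpow.eventually h2
    have h5 : Tendsto (fun n : ℕ => (n : ℝ) ^ 10 / r ^ n) atTop (𝓝 0) :=
      tendsto_pow_const_div_const_pow_of_one_lt 10 hr1
    have h6 := (h5.comp hpow).const_mul (C : ℝ)
    rw [mul_zero] at h6
    have h7 : ∀ᶠ k : ℕ in atTop,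
        (C : ℝ) * (((fun n : ℕ => (n : ℝ) ^ 10 / r ^ n) ∘ fun k : ℕ => 2 ^ k) k) < 1 :=
      h6.eventually_lt_const one_pos
    obtain ⟨k, hk4, hk7⟩ := (h4.and h7).exists
    have hrpos : 0 < r ^ (2 ^ k) := pow_pos (by linarith) _
    simp only [Function.comp_apply] at hk7
    rw [mul_div_assoc', div_lt_one hrpos] at hk7
    have h8 : (D (2 ^ k) : ℝ) ≤ (C : ℝ) * 676 ^ k := by exact_mod_cast hup k
    have h9 : (676 : ℝ) ^ k ≤ (((2 ^ k : ℕ) : ℝ)) ^ 10 := by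
      push_cast
      rw [← pow_mul, mul_comm k 10, pow_mul]
      exact pow_le_pow_left₀ (by norm_num) (by norm_num) k
    have h10 : (C : ℝ) * 676 ^ k ≤ (C : ℝ) * (((2 ^ k : ℕ) : ℝ)) ^ 10 :=
      mul_le_mul_of_nonneg_left h9 (Nat.cast_nonneg _)
    linarith
  · have hpow : Tendsto (fun k : ℕ => 2 ^ (k + 1) - 2) atTop (atTop : Filter ℕ) := by
      apply tendsto_atTop_mono (f := fun k : ℕ => k - 1) ?_ (tendsto_sub_atTop_nat 1)
      intro k
      have : k + 1 < 2 ^ (k + 1) := Nat.lt_two_pow_self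
      show k - 1 ≤ 2 ^ (k + 1) - 2
      omega
    refine ge_of_tendsto (hlim.comp hpow) (Eventually.of_forall fun k => ?_)
    have h1 := hlow k
    have h2 : 4 ^ (2 * 1) ≤ 4 ^ (2 * (k + 1)) := Nat.pow_le_pow_right (by norm_num) (by omega)
    have h3 : 1 ≤ D (2 ^ (k + 1) - 2) := by omega
    show (1 : ℝ) ≤ (D (2 ^ (k + 1) - 2) : ℝ) ^ ((1 : ℝ) / (((2 ^ (k + 1) - 2 : ℕ)) : ℝ))
    apply Real.one_le_rpow
    · exact_mod_cast h3
    · positivity

/-- The analysis: the growth is not polynomial of degree at most `3`. -/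
lemma not_comparable (D : ℕ → ℕ)
    (hlow : ∀ k, 4 ^ (2 * (k + 1)) - 1 ≤ 27 * D (2 ^ (k + 1) - 2)) (ℓ : ℕ) (hℓ : ℓ ≤ 3) :
    ¬ Comparable (fun n => (D n : ℝ)) (fun n => (n : ℝ) ^ ℓ * 1 ^ n) := by
  rintro ⟨c₁, c₂, c₃, h1, -, -, h⟩
  obtain ⟨m, hm⟩ := exists_nat_gt (max c₃ (27 / c₁ + 1))
  set n := 2 ^ (m + 2) - 2 with hn
  have hlt : m + 2 < 2 ^ (m + 2) := Nat.lt_two_pow_self
  have hmn : m ≤ n := by omega
  have hn1 : 1 ≤ n := by
    have : 2 ^ 2 ≤ 2 ^ (m + 2) := Nat.pow_le_pow_right (by norm_num) (by omega)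
    omega
  have hc3 : c₃ ≤ (n : ℝ) := by
    have h2 : c₃ < m := lt_of_le_of_lt (le_max_left _ _) hm
    have h3 : (m : ℝ) ≤ n := by exact_mod_cast hmn
    linarith
  obtain ⟨h2, -⟩ := h n hc3
  simp only [one_pow, mul_one] at h2
  have h3 : (n : ℝ) ^ ℓ ≤ (n : ℝ) ^ 3 :=
    pow_le_pow_right₀ (by exact_mod_cast hn1) hℓ
  have h4 := hlow (m + 1)
  rw [show m + 1 + 1 = m + 2 by ring, ← hn] at h4
  have hx : ((2 ^ (m + 2) : ℕ) : ℝ) ≥ 4 := by
    have : 2 ^ 2 ≤ 2 ^ (m + 2) := Nat.pow_le_pow_right (by norm_num) (by omega)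
    exact_mod_cast this
  set x : ℝ := ((2 ^ (m + 2) : ℕ) : ℝ) with hxdef
  have h5 : x ^ 4 ≤ 27 * (D n : ℝ) + 1 := by
    have h6 : (2 ^ (m + 2)) ^ 4 ≤ 27 * D n + 1 := by
      have h7 : (2 ^ (m + 2)) ^ 4 = 4 ^ (2 * (m + 2)) := by
        rw [← pow_mul, show (4 : ℕ) = 2 ^ 2 by norm_num, ← pow_mul]
        congr 1
        ring
      rw [h7]
      omega
    rw [hxdef]
    exact_mod_cast h6
  have h6 : (n : ℝ) ≤ x := by
    rw [hxdef]
    have : n ≤ 2 ^ (m + 2) := by omega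
    exact_mod_cast this
  have h7 : (n : ℝ) ^ 3 ≤ x ^ 3 := pow_le_pow_left₀ (Nat.cast_nonneg _) h6 3
  have h8 : (27 / c₁ + 1) < x := by
    have h9 : 27 / c₁ + 1 < m := lt_of_le_of_lt (le_max_right _ _) hm
    have h10 : (m : ℝ) ≤ x := by
      rw [hxdef]
      have : m ≤ 2 ^ (m + 2) := by omega
      exact_mod_cast this
    linarith
  have h9 : (D n : ℝ) ≤ x ^ 3 / c₁ := by
    rw [le_div_iff₀ h1]
    linarith
  have h10 : x ^ 4 ≤ 27 * (x ^ 3 / c₁) + 1 := by linarith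
  have h11 : 27 * (x ^ 3 / c₁) = (27 / c₁) * x ^ 3 := by ring
  have h12 : 1 ≤ x ^ 3 := one_le_pow₀ (by linarith)
  have h13 : (27 / c₁ + 1) * x ^ 3 < x * x ^ 3 :=
    mul_lt_mul_of_pos_right h8 (by positivity)
  nlinarith

/-- **Negative answer.**  Over every field `K` of characteristic zero there is a dominant rational
map `f : ℙ³ ⇢ ℙ³` with dynamical degree `δ_f = 1` such that `deg (f^n) ≥ ((n + 2)^4 - 1) / 27` for
all `n = 2^(k+1) - 2`; for no integer `ℓ ∈ {0, 1, 2, 3}` does `deg (f^n) ≍ n^ℓ δ_f^n` hold. -/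
theorem result (K : Type*) [Field K] [CharZero K] :
    ∃ f : Tuple K 3, (∃ d, AreForms f d) ∧ NoCommonFactor f ∧ Dominant f ∧
      ∃ D : ℕ → ℕ, IsDegreeSequence f D ∧
        (∀ k, (2 ^ (k + 1)) ^ 4 ≤ 27 * D (2 ^ (k + 1) - 2) + 1) ∧
        ∃ δ : ℝ, δ = 1 ∧ Tendsto (fun n : ℕ => (D n : ℝ) ^ ((1 : ℝ) / n)) atTop (𝓝 δ) ∧
          ∀ ℓ : ℕ, ℓ ≤ 3 →
            ¬ Comparable (fun n => (D n : ℝ)) (fun n => (n : ℝ) ^ ℓ * δ ^ n) := by
  have hFS0 : Pool.Agent.R855.N4.FS K 0 ≠ 0 := by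
    have h := Pool.Agent.R855.N4.iter_ne K 1
    intro h0
    apply h
    show bind₁ (Pool.Agent.Helper993.CS.iter (Pool.Agent.R855.N4.FS K) 0)
      (Pool.Agent.R855.N4.FS K 0) = 0
    rw [h0, map_zero]
  obtain ⟨d, H, f, hH, hFf, hf, hcop⟩ := Pool.Agent.Helper993.CS.redDeg_exists 300
    (Pool.Agent.R855.N4.FS K) (Pool.Agent.R855.N4.FS_hom K) hFS0
  have hdom : AlgebraicIndependent K f := Pool.Agent.R855.N4.dominant K f H hf hFf
  obtain ⟨δ, ⟨D, hD, hlim⟩, -⟩ := Pool.Agent.R855.Drop.exists_unique_dyn (by norm_num) f hf hdom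
  have hdomn := Pool.Agent.R855.Drop.algInd_iter f hdom
  have hred : ∀ n, Pool.Agent.Helper993.CS.RedDeg
      (Pool.Agent.Helper993.CS.iter (Pool.Agent.R855.N4.FS K) n) (D n) := by
    intro n
    obtain ⟨A, hA, h⟩ := Pool.Agent.R855.Drop.iter_mul f (Pool.Agent.R855.N4.FS K) H hf
      (Pool.Agent.R855.N4.FS_hom K) hFf hH hdom n
    exact Pool.Agent.R855.Drop.redDeg_mul hA h (hD n)
  obtain ⟨C, hC⟩ := Pool.Agent.R855.N4.upper K
  have hup : ∀ k, D (2 ^ k) ≤ C * 676 ^ k := fun k => hC k _ (hred _)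
  have hlow : ∀ k, 4 ^ (2 * (k + 1)) - 1 ≤ 27 * D (2 ^ (k + 1) - 2) :=
    fun k => Pool.Agent.R855.N4.lower K k _ (hred _)
  have hδ : δ = 1 := delta_eq D δ hlim C hup hlow
  refine ⟨f, ⟨d, hf⟩, hcop, hdom, D, ?_, ?_, δ, hδ, hlim, ?_⟩
  · intro n e
    rw [hasDegree_iff, compose_eq]
    constructor
    · intro h
      exact Pool.Agent.Helper993.CS.redDeg_unique _ ((hdomn n).ne_zero 0) _ _ h (hD n)
    · rintro rfl
      exact hD n
  · intro k
    have h1 := hlow k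
    have h2 : (2 ^ (k + 1)) ^ 4 = 4 ^ (2 * (k + 1)) := by
      rw [← pow_mul, show (4 : ℕ) = 2 ^ 2 by norm_num, ← pow_mul]
      congr 1
      ring
    rw [h2]
    omega
  · intro ℓ hℓ
    rw [hδ]
    exact not_comparable D hlow ℓ hℓ

end Pool.Agent.Results.MP_55ef7c_ag.GrowthBeyondN
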